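import Mathlib
import Pool.Agent.Work.MP_44129c_co.PL.Good

/-!
# MP_44129c_co/N, PLift (definition FIXED; size S-M): integer lifts of pairs

`PLift c u x z0 al ga`: `al`, `ga`, `z0` are integer lifts of the colours `c u w`, `c x w`, `c u x`, and every double star
with centre edge `u x` has its integer sum in `[1, m - 1]`.
PROOF of `plift_of_LP`.  For disjoint `A, B ⊆ XX u v` with `|A| + |B| + 1 = m` the set of options
`C = A.image (fun w => (w, false)) ∪ B.image (fun w => (w, true))` is a choice (`Ch (XX u v) (m - 1) C`) and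
`∑ o ∈ C, val o = ∑_A val (w, false) + ∑_B val (w, true)`.
`plift_symm`: exchange `u`, `x` and `A`, `B`.
-/

set_option autoImplicit false

namespace ZS44129
namespace N

open Finset

variable {V : Type} [Fintype V] [DecidableEq V] {m : ℕ}

/-- integer lift of the pair `u x`. -/
structure PLift (c : V → V → ZMod m) (u x : V) (z0 : ℤ) (al ga : V → ℤ) : Prop where
  ne : u ≠ x
  hu : ∀ w, w ≠ u → w ≠ x → (al w : ZMod m) = c u w
  hx : ∀ w, w ≠ u → w ≠ x → (ga w : ZMod m) = c x w
  h0 : (z0 : ZMod m) = c u x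
  gap : ∀ A B : Finset V, A ⊆ XX u x → B ⊆ XX u x → Disjoint A B → A.card + B.card + 1 = m →
    1 ≤ z0 + ∑ w ∈ A, al w + ∑ w ∈ B, ga w ∧ z0 + ∑ w ∈ A, al w + ∑ w ∈ B, ga w ≤ m - 1

theorem plift_of_LP {c : V → V → ZMod m} {u v : V} {z0 : ℤ} {val : V × Bool → ℤ}
    (h : LP c u v z0 val) :
    PLift c u v z0 (fun w => val (w, false)) (fun w => val (w, true)) := by
  refine ⟨h.ne, h.hu, h.hv, h.h0, ?_⟩
  intro A B hA hB hAB hc
  have hinj0 : Function.Injective (fun w : V => (w, false)) := fun a b hab => (Prod.mk.inj hab).1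
  have hinj1 : Function.Injective (fun w : V => (w, true)) := fun a b hab => (Prod.mk.inj hab).1
  have hd : Disjoint (A.image (fun w : V => (w, false))) (B.image (fun w : V => (w, true))) := by
    rw [Finset.disjoint_left]
    intro o h1 h2
    obtain ⟨a, _, rfl⟩ := mem_image.1 h1
    obtain ⟨b, _, hb⟩ := mem_image.1 h2
    exact absurd (Prod.mk.inj hb).2 (by decide)
  have hC : Ch (XX u v) (m - 1)
      (A.image (fun w : V => (w, false)) ∪ B.image (fun w : V => (w, true))) := by
    refine ⟨?_, ?_, ?_⟩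
    · intro o ho
      rcases mem_union.1 ho with h1 | h1
      · obtain ⟨a, ha, rfl⟩ := mem_image.1 h1
        exact hA ha
      · obtain ⟨b, hb, rfl⟩ := mem_image.1 h1
        exact hB hb
    · intro o ho o' ho' hoo
      rcases mem_union.1 ho with h1 | h1 <;> rcases mem_union.1 ho' with h2 | h2
      · obtain ⟨a, ha, rfl⟩ := mem_image.1 h1
        obtain ⟨a', ha', rfl⟩ := mem_image.1 h2
        exact congrArg (fun w : V => (w, false)) hoo
      · obtain ⟨a, ha, rfl⟩ := mem_image.1 h1
        obtain ⟨b, hb, rfl⟩ := mem_image.1 h2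
        have hoo' : a = b := hoo
        rw [hoo'] at ha
        exact absurd hb (Finset.disjoint_left.1 hAB ha)
      · obtain ⟨b, hb, rfl⟩ := mem_image.1 h1
        obtain ⟨a, ha, rfl⟩ := mem_image.1 h2
        have hoo' : b = a := hoo
        rw [← hoo'] at ha
        exact absurd hb (Finset.disjoint_left.1 hAB ha)
      · obtain ⟨a, ha, rfl⟩ := mem_image.1 h1
        obtain ⟨a', ha', rfl⟩ := mem_image.1 h2
        exact congrArg (fun w : V => (w, true)) hoo
    · rw [card_union_of_disjoint hd, card_image_of_injective _ hinj0,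
        card_image_of_injective _ hinj1]
      omega
  have h1 := h.gap _ hC
  rw [sum_union hd, sum_image (fun a _ b _ hab => hinj0 hab),
    sum_image (fun a _ b _ hab => hinj1 hab), ← add_assoc] at h1
  exact h1

theorem plift_symm {c : V → V → ZMod m} (hsym : ∀ x y, c x y = c y x) {u x : V} {z0 : ℤ}
    {al ga : V → ℤ} (h : PLift c u x z0 al ga) : PLift c x u z0 ga al := by
  have hXX : XX x u = XX u x := by
    ext y
    rw [mem_XX, mem_XX, and_comm]
  refine ⟨h.ne.symm, fun w h1 h2 => h.hx w h2 h1, fun w h1 h2 => h.hu w h2 h1, ?_, ?_⟩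
  · rw [h.h0]
    exact hsym u x
  · intro A B hA hB hAB hc
    rw [hXX] at hA hB
    have h1 := h.gap B A hB hA hAB.symm (by omega)
    constructor
    · linarith [h1.1]
    · linarith [h1.2]

/-- reflection. -/
theorem plift_refl {c : V → V → ZMod m} {u x : V} {z0 : ℤ} {al ga : V → ℤ}
    (h : PLift c u x z0 al ga) :
    PLift (fun p q => 1 - c p q) u x (1 - z0) (fun w => 1 - al w) (fun w => 1 - ga w) := by
  refine ⟨h.ne, ?_, ?_, ?_, ?_⟩
  · intro w h1 h2
    push_cast
    rw [h.hu w h1 h2]
  · intro w h1 h2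
    push_cast
    rw [h.hx w h1 h2]
  · push_cast
    rw [h.h0]
  · intro A B hA hB hAB hc
    have h1 := h.gap A B hA hB hAB hc
    have h2 : ∑ w ∈ A, (1 - al w) = (A.card : ℤ) - ∑ w ∈ A, al w := by
      rw [sum_sub_distrib]
      simp
    have h3 : ∑ w ∈ B, (1 - ga w) = (B.card : ℤ) - ∑ w ∈ B, ga w := by
      rw [sum_sub_distrib]
      simp
    have h4 : (A.card : ℤ) + B.card + 1 = m := by exact_mod_cast hc
    rw [h2, h3]
    constructor
    · linarith [h1.2]
    · linarith [h1.1]

end N
end ZS44129
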