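import Mathlib
import Pool.Agent.Work.MP_44129c_co.N.PLift

/-!
# MP_44129c_co/N, C34 (size M): consequences (C3), (C4) of the integer lift of a pair

`X = XX u x`, `|X| = m + s - 2`.  `M w = max (al w) (ga w)`, `μ w = min (al w) (ga w)`.
PROOF of `c4_low` (`z0 ≤ 0`).  If fewer than `s` elements of `X` have `al ≥ 1` and `ga ≥ 1`, at least `m - 1` elements have
`al ≤ 0` or `ga ≤ 0`; put `m - 1` of them on such a side: the sum is `≤ z0 ≤ 0`.  `c4_high` (`z0 ≥ 1`): at least `m - 1`
elements have `al ≥ 1` or `ga ≥ 1`, the sum is `≥ 1 + (m - 1) = m`.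
PROOF of `c3`.  Let `α` be the `(m-1)`-th largest value of `M` on `X`: `#{M > α} ≤ m - 2`, `#{M ≥ α} ≥ m - 1` (`m - 1 ≤ |X|`; e.g.
`α` = the largest integer with `#{M ≥ α} ≥ m - 1`), and `β` the `(m-1)`-th smallest value of `μ`: `#{μ < β} ≤ m - 2`,
`#{μ ≤ β} ≥ m - 1`.  A set of `m - 1` positions containing all with `M > α` and contained in `{M ≥ α}`, each on its larger
side, is a double star with sum `z0 + (m-1) α + ∑_X (M - α)^+ ≤ m - 1`; in the same way
`z0 + (m-1) β - ∑_X (β - μ)^+ ≥ 1`.  So
(*) `(m-1)(α - β) + ∑_X (M - α)^+ + ∑_X (β - μ)^+ ≤ m - 2`.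
If `α > β` the left side is `≥ m - 1`: impossible.  If `α = β`: first alternative with `θ = α`.  If `β = α + 1`: for every `w`
`(M - α)^+ + (β - μ)^+ = 1 + ([μ < β ≤ M] + (M - β)^+ + (β - 1 - μ)^+)` (three cases: `μ < β ≤ M`; `β ≤ μ`; `M < β`), so (*) says
`- (m-1) + |X| + ∑ cost ≤ m - 2`, the second alternative with `θ = β`.  If `β ≥ α + 2`: for every `w`,
`(M - α)^+ + (β - μ)^+ ≥ β - α`, and `≥ β - α + 1` if `al w ≠ ga w` (`M > μ`); so (*) gives
`(s-1)(β - α) + D ≤ m - 2`, contradiction to `hD`.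
-/

set_option autoImplicit false

namespace ZS44129
namespace N

open Finset

variable {V : Type} [Fintype V] [DecidableEq V] {m : ℕ}

/-- cost of a position with values `a`, `b` for the central threshold `θ`. -/
def cost (θ a b : ℤ) : ℤ :=
  (if min a b < θ ∧ θ ≤ max a b then 1 else 0) + max (max a b - θ) 0 + max (θ - 1 - min a b) 0

private theorem c34_sides {c : V → V → ZMod m} {u x : V} {z0 : ℤ} {al ga : V → ℤ}
    (h : PLift c u x z0 al ga) {S : Finset V} (hS : S ⊆ XX u x) (hc : S.card + 1 = m)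
    (p : V → Prop) [DecidablePred p] :
    1 ≤ z0 + ∑ w ∈ S, (if p w then al w else ga w) ∧
      z0 + ∑ w ∈ S, (if p w then al w else ga w) ≤ m - 1 := by
  have h1 := h.gap (S.filter p) (S.filter fun w => ¬ p w) ((filter_subset _ _).trans hS)
    ((filter_subset _ _).trans hS) (disjoint_filter_filter_not _ _ _)
    (by rw [card_filter_add_card_filter_not]; exact hc)
  rw [Finset.sum_ite]
  rw [add_assoc] at h1
  exact h1

private theorem c34_max {c : V → V → ZMod m} {u x : V} {z0 : ℤ} {al ga : V → ℤ}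
    (h : PLift c u x z0 al ga) {S : Finset V} (hS : S ⊆ XX u x) (hc : S.card + 1 = m) :
    z0 + ∑ w ∈ S, max (al w) (ga w) ≤ m - 1 := by
  have h1 := (c34_sides h hS hc (fun w => ga w ≤ al w)).2
  have h2 : ∀ w ∈ S, (if ga w ≤ al w then al w else ga w) = max (al w) (ga w) := by
    intro w _
    split_ifs with h3
    · exact (max_eq_left h3).symm
    · exact (max_eq_right (le_of_not_ge h3)).symm
  rwa [sum_congr rfl h2] at h1

private theorem c34_min {c : V → V → ZMod m} {u x : V} {z0 : ℤ} {al ga : V → ℤ}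
    (h : PLift c u x z0 al ga) {S : Finset V} (hS : S ⊆ XX u x) (hc : S.card + 1 = m) :
    1 ≤ z0 + ∑ w ∈ S, min (al w) (ga w) := by
  have h1 := (c34_sides h hS hc (fun w => al w ≤ ga w)).1
  have h2 : ∀ w ∈ S, (if al w ≤ ga w then al w else ga w) = min (al w) (ga w) := by
    intro w _
    split_ifs with h3
    · exact (min_eq_left h3).symm
    · exact (min_eq_right (le_of_not_ge h3)).symm
  rwa [sum_congr rfl h2] at h1

private theorem c34_card {u x : V} (hux : u ≠ x) {s : ℕ} (hV : Fintype.card V = m + s) :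
    (XX u x).card + 2 = m + s := by
  have h1 : (XX u x) = (univ.erase u).erase x := by
    ext y
    rw [mem_XX, mem_erase, mem_erase]
    simp only [mem_univ, and_true]
    exact and_comm
  rw [h1, card_erase_of_mem (mem_erase.2 ⟨hux.symm, mem_univ x⟩), card_erase_of_mem (mem_univ u),
    card_univ, hV]
  have h2 : 2 ≤ Fintype.card V := by
    rw [← Finset.card_pair hux]
    exact card_le_univ _
  omega

theorem c4_low {c : V → V → ZMod m} {u x : V} {z0 : ℤ} {al ga : V → ℤ}
    (h : PLift c u x z0 al ga) {s : ℕ} (hV : Fintype.card V = m + s) (hm : 1 ≤ m) (h0 : z0 ≤ 0) :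
    s ≤ ((XX u x).filter (fun w => 1 ≤ al w ∧ 1 ≤ ga w)).card := by
  by_contra hcon
  have hX := c34_card h.ne hV
  have h1 := card_filter_add_card_filter_not (s := XX u x) (fun w => 1 ≤ al w ∧ 1 ≤ ga w)
  obtain ⟨S, hS, hSc⟩ := exists_subset_card_eq
    (s := (XX u x).filter (fun w => ¬ (1 ≤ al w ∧ 1 ≤ ga w))) (n := m - 1) (by omega)
  have h2 := c34_min h (hS.trans (filter_subset _ _)) (by omega)
  have h3 : ∑ w ∈ S, min (al w) (ga w) ≤ 0 := by
    refine sum_nonpos fun w hw => ?_
    have h4 := (mem_filter.1 (hS hw)).2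
    rw [not_and_or, not_le, not_le] at h4
    rw [min_le_iff]
    rcases h4 with h4 | h4
    · left; omega
    · right; omega
  linarith

theorem c4_high {c : V → V → ZMod m} {u x : V} {z0 : ℤ} {al ga : V → ℤ}
    (h : PLift c u x z0 al ga) {s : ℕ} (hV : Fintype.card V = m + s) (hm : 1 ≤ m) (h0 : 1 ≤ z0) :
    s ≤ ((XX u x).filter (fun w => al w ≤ 0 ∧ ga w ≤ 0)).card := by
  by_contra hcon
  have hX := c34_card h.ne hV
  have h1 := card_filter_add_card_filter_not (s := XX u x) (fun w => al w ≤ 0 ∧ ga w ≤ 0)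
  obtain ⟨S, hS, hSc⟩ := exists_subset_card_eq
    (s := (XX u x).filter (fun w => ¬ (al w ≤ 0 ∧ ga w ≤ 0))) (n := m - 1) (by omega)
  have h2 := c34_max h (hS.trans (filter_subset _ _)) (by omega)
  have h3 : (S.card : ℤ) ≤ ∑ w ∈ S, max (al w) (ga w) := by
    rw [card_eq_sum_ones]
    push_cast
    refine sum_le_sum fun w hw => ?_
    have h4 := (mem_filter.1 (hS hw)).2
    rw [not_and_or, not_le, not_le] at h4
    rw [le_max_iff]
    rcases h4 with h4 | h4
    · left; omega
    · right; omega
  rw [hSc] at h3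
  have h5 : ((m - 1 : ℕ) : ℤ) = m - 1 := by omega
  rw [h5] at h3
  linarith

private theorem c34_top (X : Finset V) (M : V → ℤ) {k : ℕ} (hk : 1 ≤ k) (hX : k ≤ X.card) :
    ∃ (a : ℤ) (S : Finset V), S ⊆ X ∧ S.card = k ∧
      k ≤ (X.filter fun w => a ≤ M w).card ∧ (X.filter fun w => a + 1 ≤ M w).card + 1 ≤ k ∧
      ∑ w ∈ S, M w = k * a + ∑ w ∈ X, max (M w - a) 0 := by
  have hb : ∀ w ∈ X, |M w| ≤ ∑ v ∈ X, |M v| := fun w hw =>
    single_le_sum (f := fun v => |M v|) (fun v _ => abs_nonneg _) hw
  obtain ⟨a, ha, hmax⟩ := Int.exists_greatest_of_bdd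
    (P := fun a => k ≤ (X.filter fun w => a ≤ M w).card)
    ⟨∑ v ∈ X, |M v|, fun z hz => by
      have h1 : 0 < (X.filter fun w => z ≤ M w).card := by omega
      obtain ⟨w, hw⟩ := card_pos.1 h1
      obtain ⟨h2, h3⟩ := mem_filter.1 hw
      exact h3.trans ((le_abs_self _).trans (hb w h2))⟩
    ⟨-∑ v ∈ X, |M v|, by
      rw [filter_true_of_mem]
      · exact hX
      · intro w hw
        have h1 := hb w hw
        have h2 := neg_abs_le (M w)
        linarith⟩
  have hlt : (X.filter fun w => a + 1 ≤ M w).card + 1 ≤ k := by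
    by_contra hcon
    have h1 := hmax (a + 1) (by omega)
    omega
  have hsub : (X.filter fun w => a + 1 ≤ M w) ⊆ X.filter fun w => a ≤ M w := by
    intro w hw
    obtain ⟨h1, h2⟩ := mem_filter.1 hw
    exact mem_filter.2 ⟨h1, by linarith⟩
  obtain ⟨S, hS1, hS2, hSc⟩ := exists_subsuperset_card_eq hsub (n := k) (by omega) ha
  refine ⟨a, S, hS2.trans (filter_subset _ _), hSc, ha, hlt, ?_⟩
  have h1 : ∑ w ∈ X, max (M w - a) 0 = ∑ w ∈ S, max (M w - a) 0 := by
    refine (sum_subset (hS2.trans (filter_subset _ _)) fun w hw hw2 => ?_).symm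
    have h2 : ¬ a + 1 ≤ M w := fun h3 => hw2 (hS1 (mem_filter.2 ⟨hw, h3⟩))
    exact max_eq_right (by omega)
  have h2 : ∑ w ∈ S, max (M w - a) 0 = ∑ w ∈ S, (M w - a) := by
    refine sum_congr rfl fun w hw => max_eq_left ?_
    have h3 := (mem_filter.1 (hS2 hw)).2
    linarith
  rw [h1, h2, sum_sub_distrib, sum_const, hSc, nsmul_eq_mul]
  ring

theorem c3 {c : V → V → ZMod m} {u x : V} {z0 : ℤ} {al ga : V → ℤ}
    (h : PLift c u x z0 al ga) {s : ℕ} (hV : Fintype.card V = m + s) (hs : 1 ≤ s) (hm : 2 ≤ m)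
    (hD : m < 2 * s + ((XX u x).filter (fun w => al w ≠ ga w)).card) :
    (∃ θ : ℤ, ∑ w ∈ XX u x, (max (max (al w) (ga w) - θ) 0 + max (θ - min (al w) (ga w)) 0) + 2 ≤ m ∧
      m ≤ ((XX u x).filter (fun w => θ ≤ max (al w) (ga w))).card + 1 ∧
      m ≤ ((XX u x).filter (fun w => min (al w) (ga w) ≤ θ)).card + 1) ∨
    (∃ θ : ℤ, ∑ w ∈ XX u x, cost θ (al w) (ga w) + s + 1 ≤ m ∧
      ((XX u x).filter (fun w => θ ≤ max (al w) (ga w))).card + 2 ≤ m ∧
      ((XX u x).filter (fun w => min (al w) (ga w) < θ)).card + 2 ≤ m) := by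
  have hX := c34_card h.ne hV
  obtain ⟨a, S, hS, hSc, ha1, ha2, ha3⟩ := c34_top (XX u x) (fun w => max (al w) (ga w))
    (k := m - 1) (by omega) (by omega)
  obtain ⟨b', T, hT, hTc, hb1, hb2, hb3⟩ := c34_top (XX u x) (fun w => - min (al w) (ga w))
    (k := m - 1) (by omega) (by omega)
  obtain ⟨b, rfl⟩ : ∃ b, b' = -b := ⟨-b', by ring⟩
  have hmx := c34_max h hS (by omega)
  have hmn := c34_min h hT (by omega)
  have hk : ((m - 1 : ℕ) : ℤ) = m - 1 := by omega
  rw [hk] at ha3 hb3
  have e1 : ∑ w ∈ XX u x, max (- min (al w) (ga w) - -b) 0 =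
      ∑ w ∈ XX u x, max (b - min (al w) (ga w)) 0 :=
    sum_congr rfl fun w _ => by rw [show - min (al w) (ga w) - -b = b - min (al w) (ga w) by ring]
  rw [e1, sum_neg_distrib] at hb3
  have f1 : ((XX u x).filter fun w => -b ≤ - min (al w) (ga w)) =
      (XX u x).filter fun w => min (al w) (ga w) ≤ b :=
    filter_congr fun w _ => by constructor <;> intro h1 <;> omega
  have f2 : ((XX u x).filter fun w => -b + 1 ≤ - min (al w) (ga w)) =
      (XX u x).filter fun w => min (al w) (ga w) < b :=
    filter_congr fun w _ => by constructor <;> intro h1 <;> omega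
  rw [f1] at hb1
  rw [f2] at hb2
  have hstar : ((m : ℤ) - 1) * (a - b) + ∑ w ∈ XX u x, (max (max (al w) (ga w) - a) 0 +
      max (b - min (al w) (ga w)) 0) ≤ m - 2 := by
    rw [sum_add_distrib]
    linarith
  have hXz : ((XX u x).card : ℤ) = m + s - 2 := by
    have : (((XX u x).card + 2 : ℕ) : ℤ) = ((m + s : ℕ) : ℤ) := congrArg _ hX
    push_cast at this
    linarith
  have hm' : (2 : ℤ) ≤ m := by exact_mod_cast hm
  rcases lt_trichotomy b a with hab | hab | hab
  · exfalso
    have h1 : 0 ≤ ∑ w ∈ XX u x, (max (max (al w) (ga w) - a) 0 +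
      max (b - min (al w) (ga w)) 0) :=
      sum_nonneg fun w _ => add_nonneg (le_max_right _ _) (le_max_right _ _)
    have h2 : ((m : ℤ) - 1) * 1 ≤ (m - 1) * (a - b) :=
      mul_le_mul_of_nonneg_left (by omega) (by omega)
    linarith
  · subst hab
    left
    refine ⟨b, ?_, by omega, by omega⟩
    rw [sub_self, mul_zero, zero_add] at hstar
    linarith
  · rcases eq_or_lt_of_le (show a + 1 ≤ b by omega) with hab' | hab'
    · right
      subst hab'
      refine ⟨a + 1, ?_, by omega, by omega⟩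
      have h1 : ∑ w ∈ XX u x, (max (max (al w) (ga w) - a) 0 +
          max (a + 1 - min (al w) (ga w)) 0) =
          ∑ w ∈ XX u x, (1 + cost (a + 1) (al w) (ga w)) := by
        refine sum_congr rfl fun w _ => ?_
        unfold cost
        have h2 : min (al w) (ga w) ≤ max (al w) (ga w) := min_le_max
        generalize max (al w) (ga w) = p at h2
        generalize min (al w) (ga w) = r at h2
        split_ifs with h3
        · rw [max_eq_left (by omega), max_eq_left (by omega), max_eq_left (by omega),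
            max_eq_left (by omega)]
          ring
        · by_cases h4 : r < a + 1
          · have h5 : p < a + 1 := by
              by_contra h6
              exact h3 ⟨h4, by omega⟩
            rw [max_eq_right (by omega), max_eq_left (by omega), max_eq_right (by omega),
              max_eq_left (by omega)]
            ring
          · rw [max_eq_left (by omega), max_eq_right (by omega), max_eq_left (by omega),
              max_eq_right (by omega)]
            ring
      rw [h1, sum_add_distrib, sum_const, nsmul_eq_mul, hXz] at hstar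
      linarith
    · exfalso
      have h1 : ∑ w ∈ XX u x, ((b - a) + (if al w ≠ ga w then (1 : ℤ) else 0)) ≤
          ∑ w ∈ XX u x, (max (max (al w) (ga w) - a) 0 + max (b - min (al w) (ga w)) 0) := by
        refine sum_le_sum fun w _ => ?_
        have h2 := le_max_left (max (al w) (ga w) - a) 0
        have h3 := le_max_left (b - min (al w) (ga w)) 0
        have h4 : (if al w ≠ ga w then (1 : ℤ) else 0) ≤ max (al w) (ga w) - min (al w) (ga w) := by
          split_ifs with h5
          · rcases lt_or_gt_of_ne h5 with h6 | h6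
            · rw [max_eq_right h6.le, min_eq_left h6.le]
              omega
            · rw [max_eq_left h6.le, min_eq_right h6.le]
              omega
          · have : min (al w) (ga w) ≤ max (al w) (ga w) := min_le_max
            linarith
        linarith
      rw [sum_add_distrib, sum_const, nsmul_eq_mul, hXz, Finset.sum_boole] at h1
      have hD' : (m : ℤ) < 2 * s + (((XX u x).filter (fun w => al w ≠ ga w)).card : ℤ) := by
        exact_mod_cast hD
      have hs' : (1 : ℤ) ≤ s := by exact_mod_cast hs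
      have h2 : ((s : ℤ) - 1) * 2 ≤ (s - 1) * (b - a) :=
        mul_le_mul_of_nonneg_left (by omega) (by omega)
      nlinarith

end N
end ZS44129
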