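import Mathlib
import Pool.Agent.Work.MP_44129c_co.Defs

/-!
# MP_44129c_co/N, NearMF (size M): near exact stars in common colours give an MF colouring

`C` = symmetric integer lift of `c`; every vertex has total excess `≤ e₀` over the values `0, 1` and each of the values
`0`, `1` at most `n₀` times; `7 e₀ + n₀ ≤ m`.
PROOF of `ds_pos`.  Let `x, z, A, B` be a double star (`|A| + |B| + 1 = m`) with integer sum
`Z = C x z + ∑_A C x w + ∑_B C z w ≤ -1` (`Z ≤ 0` and `Z ≠ 0` because the image of `Z` in `ZMod m` is not `0` by `ZSF`).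
The sum of the negative parts of the edges at `x` is `≤ e₀`, also at `z`; so `Z ≥ - 2 e₀`, the number of edges of the double
star with `C ≥ 1` is `≤ 2 e₀ - 1`, the number of its edges with `C < 0` is `≤ 2 e₀`.  Let `A₀ = {w ∈ A : C x w = 0}`,
`B₀ = {w ∈ B : C z w = 0}`: `|A₀| + |B₀| ≥ m - 4 e₀` (at most one zero edge is the centre edge).  Let
`J = {w ∈ A₀ : C z w = 1}`.  At most `e₀` elements `w` of `A₀` have `C z w ∉ {0, 1}`, and at most `n₀ - |B₀|` have `C z w = 0`
(`A₀`, `B₀` are disjoint), so `|J| ≥ |A₀| + |B₀| - n₀ - e₀ ≥ m - 5 e₀ - n₀ ≥ 2 e₀ ≥ - Z`.  Choose `J' ⊆ J` with `|J'| = - Z`.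
The double star with leaves `A \ J'` at `x` and `B ∪ J'` at `z` has `m` edges and integer sum `Z + |J'| = 0`:
contradiction to `ZSF`.
PROOF of `ds_lt`.  Apply `ds_pos` to `1 - c`, `1 - C` (`∑ (1 - C) = m - Z`; `1 - C` has value `0` where `C = 1`; the excess
of `1 - v` is that of `v`).
PROOF of `near_mf`.  `b x w = decide (1 ≤ C x w)`.  A double star all of whose edges have `C ≥ 1` has `Z ≥ m`, one with
all `C ≤ 0` has `Z ≤ 0`.
`two_val_mf`: `b x w = decide (c x w = a)`; a monochromatic double star has all `m` edges of the same colour `a` (or `a'`) and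
`m • a = 0`.
-/

set_option autoImplicit false

namespace ZS44129
namespace N

open Finset

/-- excess of an integer over the values `0`, `1`. -/
def exc (v : ℤ) : ℤ := max (v - 1) 0 + max (- v) 0

variable {V : Type} [Fintype V] [DecidableEq V] {m : ℕ}

private theorem exc_nonneg (v : ℤ) : 0 ≤ exc v := by
  unfold exc
  positivity

private theorem exc1 (v : ℤ) : 1 ≤ v + 2 * exc v + (if v = 0 then 1 else 0) := by
  unfold exc
  split_ifs with h
  · subst h
    norm_num
  · rcases lt_or_gt_of_ne h with h | h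
    · rw [max_eq_right (by omega : v - 1 ≤ 0), max_eq_left (by omega : 0 ≤ -v)]
      omega
    · have := le_max_right (v - 1) 0
      have := le_max_right (-v) 0
      omega

private theorem exc2 (v : ℤ) : 0 ≤ v + exc v := by
  unfold exc
  have := le_max_left (-v) 0
  have := le_max_right (v - 1) 0
  omega

private theorem exc3 (v : ℤ) : 1 ≤ (if v = 1 then 1 else 0) + (if v = 0 then 1 else 0) + exc v := by
  unfold exc
  have h1 := le_max_left (-v) 0
  have h2 := le_max_right (-v) 0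
  have h3 := le_max_left (v - 1) 0
  have h4 := le_max_right (v - 1) 0
  split_ifs <;> omega

private theorem exc_sub (v : ℤ) : exc (1 - v) = exc v := by
  unfold exc
  rw [show (1 - v - 1 : ℤ) = -v by ring, show (-(1 - v) : ℤ) = v - 1 by ring, add_comm]

private theorem cast_tot {c : V → V → ZMod m} (C : V → V → ℤ)
    (hC : ∀ x w, x ≠ w → (C x w : ZMod m) = c x w) {x z : V} (hxz : x ≠ z) (A B : Finset V)
    (hxA : x ∉ A) (hzB : z ∉ B) :
    ((C x z + ∑ w ∈ A, C x w + ∑ w ∈ B, C z w : ℤ) : ZMod m) =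
      c x z + ∑ w ∈ A, c x w + ∑ w ∈ B, c z w := by
  push_cast
  rw [hC x z hxz, Finset.sum_congr rfl (fun w hw => hC x w (fun h => hxA (h ▸ hw))),
    Finset.sum_congr rfl (fun w hw => hC z w (fun h => hzB (h ▸ hw)))]

theorem ds_pos [NeZero m] {c : V → V → ZMod m} (hz : ZSF m c) (C : V → V → ℤ)
    (hC : ∀ x w, x ≠ w → (C x w : ZMod m) = c x w) (hsymC : ∀ x w, C x w = C w x) (e₀ n₀ : ℕ)
    (hex : ∀ x, ∑ w ∈ univ.erase x, exc (C x w) ≤ e₀)
    (h0 : ∀ x, ((univ.erase x).filter (fun w => C x w = 0)).card ≤ n₀) (hnum : 7 * e₀ + n₀ ≤ m)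
    {x z : V} (hxz : x ≠ z) (A B : Finset V) (hAB : Disjoint A B) (hxA : x ∉ A) (hzA : z ∉ A)
    (hxB : x ∉ B) (hzB : z ∉ B) (hc : A.card + B.card + 1 = m) :
    1 ≤ C x z + ∑ w ∈ A, C x w + ∑ w ∈ B, C z w := by
  by_contra hneg
  set Z : ℤ := C x z + ∑ w ∈ A, C x w + ∑ w ∈ B, C z w with hZ
  have hZ0 : Z ≠ 0 := by
    intro h
    have h1 := hz x z hxz A B hAB hxA hzA hxB hzB hc
    rw [← cast_tot C hC hxz A B hxA hzB, ← hZ, h] at h1
    simp at h1
  have hZ1 : Z ≤ -1 := by omega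
  have hexx : exc (C x z) + ∑ w ∈ A, exc (C x w) ≤ e₀ := by
    rw [← Finset.sum_insert (f := fun w => exc (C x w)) hzA]
    refine le_trans (Finset.sum_le_sum_of_subset_of_nonneg ?_ fun w _ _ => exc_nonneg _) (hex x)
    intro w hw
    rcases Finset.mem_insert.1 hw with rfl | hw
    · exact Finset.mem_erase.2 ⟨hxz.symm, Finset.mem_univ _⟩
    · exact Finset.mem_erase.2 ⟨fun h => hxA (h ▸ hw), Finset.mem_univ _⟩
  have hexB : ∑ w ∈ B, exc (C z w) ≤ e₀ := by
    refine le_trans (Finset.sum_le_sum_of_subset_of_nonneg ?_ fun w _ _ => exc_nonneg _) (hex z)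
    intro w hw
    exact Finset.mem_erase.2 ⟨fun h => hzB (h ▸ hw), Finset.mem_univ _⟩
  set A0 := A.filter (fun w => C x w = 0) with hA0
  set B0 := B.filter (fun w => C z w = 0) with hB0
  set A00 := A0.filter (fun w => C z w = 0) with hA00
  set J := A0.filter (fun w => C z w = 1) with hJ
  have hexA0 : ∑ w ∈ A0, exc (C z w) ≤ e₀ := by
    refine le_trans (Finset.sum_le_sum_of_subset_of_nonneg ?_ fun w _ _ => exc_nonneg _) (hex z)
    intro w hw
    exact Finset.mem_erase.2 ⟨fun h => hzA (h ▸ (Finset.mem_filter.1 hw).1), Finset.mem_univ _⟩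
  have hlow : -(2 * e₀ : ℤ) ≤ Z := by
    have h1 : 0 ≤ ∑ w ∈ A, (C x w + exc (C x w)) := Finset.sum_nonneg fun w _ => exc2 _
    have h2 : 0 ≤ ∑ w ∈ B, (C z w + exc (C z w)) := Finset.sum_nonneg fun w _ => exc2 _
    have h3 := exc2 (C x z)
    rw [Finset.sum_add_distrib] at h1 h2
    linarith
  have hA : (A.card : ℤ) ≤ ∑ w ∈ A, C x w + 2 * ∑ w ∈ A, exc (C x w) + A0.card := by
    have h1 : ∑ w ∈ A, (1 : ℤ) ≤ ∑ w ∈ A, (C x w + 2 * exc (C x w) +
        (if C x w = 0 then 1 else 0)) := Finset.sum_le_sum fun w _ => exc1 _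
    rw [Finset.sum_add_distrib, Finset.sum_add_distrib, ← Finset.mul_sum, Finset.sum_boole,
      Finset.sum_const, nsmul_eq_mul, mul_one] at h1
    exact h1
  have hB : (B.card : ℤ) ≤ ∑ w ∈ B, C z w + 2 * ∑ w ∈ B, exc (C z w) + B0.card := by
    have h1 : ∑ w ∈ B, (1 : ℤ) ≤ ∑ w ∈ B, (C z w + 2 * exc (C z w) +
        (if C z w = 0 then 1 else 0)) := Finset.sum_le_sum fun w _ => exc1 _
    rw [Finset.sum_add_distrib, Finset.sum_add_distrib, ← Finset.mul_sum, Finset.sum_boole,
      Finset.sum_const, nsmul_eq_mul, mul_one] at h1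
    exact h1
  have hJ1 : (A0.card : ℤ) ≤ J.card + A00.card + ∑ w ∈ A0, exc (C z w) := by
    have h1 : ∑ w ∈ A0, (1 : ℤ) ≤ ∑ w ∈ A0, ((if C z w = 1 then 1 else 0) +
        (if C z w = 0 then 1 else 0) + exc (C z w)) := Finset.sum_le_sum fun w _ => exc3 _
    rw [Finset.sum_add_distrib, Finset.sum_add_distrib, Finset.sum_boole, Finset.sum_boole,
      Finset.sum_const, nsmul_eq_mul, mul_one] at h1
    exact h1
  have hn : A00.card + B0.card ≤ n₀ := by
    have hd : Disjoint A00 B0 := Finset.disjoint_of_subset_left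
      ((Finset.filter_subset _ _).trans (Finset.filter_subset _ _))
      (Finset.disjoint_of_subset_right (Finset.filter_subset _ _) hAB)
    rw [← Finset.card_union_of_disjoint hd]
    refine (Finset.card_le_card ?_).trans (h0 z)
    intro w hw
    rcases Finset.mem_union.1 hw with hw | hw
    · obtain ⟨h1, h2⟩ := Finset.mem_filter.1 hw
      exact Finset.mem_filter.2 ⟨Finset.mem_erase.2
        ⟨fun h => hzA (h ▸ (Finset.mem_filter.1 h1).1), Finset.mem_univ _⟩, h2⟩
    · obtain ⟨h1, h2⟩ := Finset.mem_filter.1 hw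
      exact Finset.mem_filter.2 ⟨Finset.mem_erase.2
        ⟨fun h => hzB (h ▸ h1), Finset.mem_univ _⟩, h2⟩
  have hcen : 0 ≤ C x z + 2 * exc (C x z) := by
    have := exc2 (C x z)
    have := exc_nonneg (C x z)
    linarith
  have hJc : -Z ≤ J.card := by
    have h1 : (A.card : ℤ) + B.card + 1 = m := by exact_mod_cast hc
    have h2 : (A00.card : ℤ) + B0.card ≤ n₀ := by exact_mod_cast hn
    have h3 : (7 * e₀ + n₀ : ℤ) ≤ m := by exact_mod_cast hnum
    have h4 : (A.card : ℤ) + B.card ≤ Z + 4 * e₀ + A0.card + B0.card := by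
      rw [hZ]
      linarith
    linarith
  obtain ⟨J', hJ', hJ'c⟩ := Finset.exists_subset_card_eq
    (show (-Z).toNat ≤ J.card by omega)
  have hJA : J' ⊆ A := hJ'.trans ((Finset.filter_subset _ _).trans (Finset.filter_subset _ _))
  have hdJB : Disjoint B J' := Finset.disjoint_of_subset_right hJA hAB.symm
  have hd : Disjoint (A \ J') (B ∪ J') :=
    Finset.disjoint_union_right.2 ⟨Finset.disjoint_of_subset_left Finset.sdiff_subset hAB,
      Finset.sdiff_disjoint⟩
  have hx1 : x ∉ A \ J' := fun h => hxA (Finset.mem_sdiff.1 h).1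
  have hz1 : z ∉ A \ J' := fun h => hzA (Finset.mem_sdiff.1 h).1
  have hx2 : x ∉ B ∪ J' := fun h => (Finset.mem_union.1 h).elim hxB fun h => hxA (hJA h)
  have hz2 : z ∉ B ∪ J' := fun h => (Finset.mem_union.1 h).elim hzB fun h => hzA (hJA h)
  have hcard : (A \ J').card + (B ∪ J').card + 1 = m := by
    rw [Finset.card_union_of_disjoint hdJB, Finset.card_sdiff_of_subset hJA]
    have := Finset.card_le_card hJA
    omega
  have key := hz x z hxz _ _ hd hx1 hz1 hx2 hz2 hcard
  rw [← cast_tot C hC hxz _ _ hx1 hz2] at key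
  apply key
  have e1 : ∑ w ∈ A \ J', C x w = ∑ w ∈ A, C x w := by
    have h1 := Finset.sum_sdiff (f := fun w => C x w) hJA
    have h2 : ∑ w ∈ J', C x w = 0 := Finset.sum_eq_zero fun w hw =>
      (Finset.mem_filter.1 (Finset.mem_filter.1 (hJ' hw)).1).2
    linarith
  have e2 : ∑ w ∈ B ∪ J', C z w = ∑ w ∈ B, C z w + J'.card := by
    rw [Finset.sum_union hdJB]
    have h2 : ∑ w ∈ J', C z w = J'.card := by
      rw [Finset.sum_congr rfl (fun w hw => (Finset.mem_filter.1 (hJ' hw)).2), Finset.sum_const,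
        nsmul_eq_mul, mul_one]
    rw [h2]
  rw [e1, e2, ← add_assoc, ← hZ, hJ'c]
  have : Z + ((-Z).toNat : ℤ) = 0 := by omega
  rw [this, Int.cast_zero]

theorem ds_lt [NeZero m] {c : V → V → ZMod m} (hz : ZSF m c) (C : V → V → ℤ)
    (hC : ∀ x w, x ≠ w → (C x w : ZMod m) = c x w) (hsymC : ∀ x w, C x w = C w x) (e₀ n₀ : ℕ)
    (hex : ∀ x, ∑ w ∈ univ.erase x, exc (C x w) ≤ e₀)
    (h1 : ∀ x, ((univ.erase x).filter (fun w => C x w = 1)).card ≤ n₀) (hnum : 7 * e₀ + n₀ ≤ m)
    {x z : V} (hxz : x ≠ z) (A B : Finset V) (hAB : Disjoint A B) (hxA : x ∉ A) (hzA : z ∉ A)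
    (hxB : x ∉ B) (hzB : z ∉ B) (hc : A.card + B.card + 1 = m) :
    C x z + ∑ w ∈ A, C x w + ∑ w ∈ B, C z w + 1 ≤ m := by
  have hm : (A.card : ℤ) + B.card + 1 = m := by exact_mod_cast hc
  have hz' : ZSF m (fun x w => 1 - c x w) := by
    intro u v huv X Y hXY a1 a2 a3 a4 hcc h
    apply hz u v huv X Y hXY a1 a2 a3 a4 hcc
    have hmm : ((X.card : ZMod m)) + Y.card + 1 = 0 := by
      have : ((X.card + Y.card + 1 : ℕ) : ZMod m) = 0 := by rw [hcc, ZMod.natCast_self]
      exact_mod_cast this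
    simp only [Finset.sum_sub_distrib, Finset.sum_const, nsmul_eq_mul, mul_one] at h
    linear_combination -h + hmm
  have key := ds_pos hz' (fun x w => 1 - C x w)
    (fun x w hxw => by push_cast; rw [hC x w hxw]) (fun x w => by simp only [hsymC x w]) e₀ n₀
    (fun x => by simp only [exc_sub]; exact hex x)
    (fun x => by
      have : ∀ w, (1 - C x w = 0) = (C x w = 1) := fun w => by
        apply propext
        omega
      simp only [this]
      exact h1 x) hnum hxz A B hAB hxA hzA hxB hzB hc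
  simp only [Finset.sum_sub_distrib, Finset.sum_const, nsmul_eq_mul, mul_one] at key
  linarith

theorem near_mf [NeZero m] {c : V → V → ZMod m} (hz : ZSF m c) (C : V → V → ℤ)
    (hC : ∀ x w, x ≠ w → (C x w : ZMod m) = c x w) (hsymC : ∀ x w, C x w = C w x) (e₀ n₀ : ℕ)
    (hex : ∀ x, ∑ w ∈ univ.erase x, exc (C x w) ≤ e₀)
    (h0 : ∀ x, ((univ.erase x).filter (fun w => C x w = 0)).card ≤ n₀)
    (h1 : ∀ x, ((univ.erase x).filter (fun w => C x w = 1)).card ≤ n₀) (hnum : 7 * e₀ + n₀ ≤ m) :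
    ∃ b : V → V → Bool, (∀ x y, b x y = b y x) ∧ MF m b := by
  refine ⟨fun x w => decide (1 ≤ C x w), fun x y => by simp only [hsymC x y], ?_⟩
  intro u v huv X Y hXY a1 a2 a3 a4 hcc ⟨hX, hY⟩
  have hm : (X.card : ℤ) + Y.card + 1 = m := by exact_mod_cast hcc
  have k1 := ds_pos hz C hC hsymC e₀ n₀ hex h0 hnum huv X Y hXY a1 a2 a3 a4 hcc
  have k2 := ds_lt hz C hC hsymC e₀ n₀ hex h1 hnum huv X Y hXY a1 a2 a3 a4 hcc
  by_cases h : 1 ≤ C u v
  · have b1 : (X.card : ℤ) ≤ ∑ w ∈ X, C u w := by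
      have : ∑ w ∈ X, (1 : ℤ) ≤ ∑ w ∈ X, C u w := Finset.sum_le_sum fun w hw => by
        have := hX w hw
        simpa [h] using this
      simpa using this
    have b2 : (Y.card : ℤ) ≤ ∑ w ∈ Y, C v w := by
      have : ∑ w ∈ Y, (1 : ℤ) ≤ ∑ w ∈ Y, C v w := Finset.sum_le_sum fun w hw => by
        have := hY w hw
        simpa [h] using this
      simpa using this
    linarith
  · have b1 : ∑ w ∈ X, C u w ≤ 0 := Finset.sum_nonpos fun w hw => by
      have := hX w hw
      simp only [decide_eq_decide] at this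
      have h2 : ¬ 1 ≤ C u w := fun h3 => h (this.1 h3)
      omega
    have b2 : ∑ w ∈ Y, C v w ≤ 0 := Finset.sum_nonpos fun w hw => by
      have := hY w hw
      simp only [decide_eq_decide] at this
      have h2 : ¬ 1 ≤ C v w := fun h3 => h (this.1 h3)
      omega
    omega

theorem two_val_mf [NeZero m] {c : V → V → ZMod m} (hsym : ∀ x y, c x y = c y x) (hz : ZSF m c)
    (a a' : ZMod m) (h : ∀ x y, x ≠ y → c x y = a ∨ c x y = a') :
    ∃ b : V → V → Bool, (∀ x y, b x y = b y x) ∧ MF m b := by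
  refine ⟨fun x w => decide (c x w = a), fun x y => by simp only [hsym x y], ?_⟩
  intro u v huv X Y hXY a1 a2 a3 a4 hcc ⟨hX, hY⟩
  have key : ∀ g : ZMod m, c u v = g → (∀ w ∈ X, c u w = g) → (∀ w ∈ Y, c v w = g) → False := by
    intro g h1 h2 h3
    apply hz u v huv X Y hXY a1 a2 a3 a4 hcc
    have hmm : ((X.card : ZMod m)) + Y.card + 1 = 0 := by
      have : ((X.card + Y.card + 1 : ℕ) : ZMod m) = 0 := by rw [hcc, ZMod.natCast_self]
      exact_mod_cast this
    rw [h1, Finset.sum_congr rfl h2, Finset.sum_congr rfl h3, Finset.sum_const, Finset.sum_const,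
      nsmul_eq_mul, nsmul_eq_mul]
    linear_combination g * hmm
  by_cases hu : c u v = a
  · refine key a hu (fun w hw => ?_) (fun w hw => ?_)
    · have := hX w hw
      simpa [hu] using this
    · have := hY w hw
      simpa [hu] using this
  · have hu' : c u v = a' := (h u v huv).resolve_left hu
    refine key a' hu' (fun w hw => ?_) (fun w hw => ?_)
    · have h1 := hX w hw
      simp only [decide_eq_decide] at h1
      exact (h u w (fun h2 => a1 (h2 ▸ hw))).resolve_left fun h2 => hu (h1.1 h2)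
    · have h1 := hY w hw
      simp only [decide_eq_decide] at h1
      exact (h v w (fun h2 => a4 (h2 ▸ hw))).resolve_left fun h2 => hu (h1.1 h2)

end N
end ZS44129
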