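import Mathlib
import Pool.Agent.Work.MP_44129c_co.N.NearMF

/-!
# MP_44129c_co/N, Common (size S-M): stars with lifts in a common scale

PROOF.  By the choice of `Y x` we have `(Y x w - Y w x) • g = 0` (`c` symmetric), so `m ∣ Y x w - Y w x` (`g` a unit); both are in
`[- e₀, e₀ + 1]` (their excess is `≤ e₀`) and `2 e₀ + 1 < m`, so `Y x w = Y w x` for `x ≠ w`.  Put `C x w = Y x w` for `x ≠ w` and
`C x x = 0`.  Apply `near_mf` to the colouring `c' x w = g⁻¹ * c x w - g⁻¹ * a`, which is `ZSF` (multiply the sum of a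
double star by `g`; `m • (g⁻¹ a) = 0`; see `zsf_affine` in PL/Good).
-/

set_option autoImplicit false

namespace ZS44129
namespace N

open Finset

variable {V : Type} [Fintype V] [DecidableEq V] {m : ℕ}

private theorem exc_nn (v : ℤ) : 0 ≤ exc v := by
  unfold exc
  exact add_nonneg (le_max_right _ _) (le_max_right _ _)

private theorem exc_bd {v e : ℤ} (h : exc v ≤ e) : -e ≤ v ∧ v ≤ e + 1 := by
  unfold exc at h
  have h1 := le_max_left (v - 1) 0
  have h2 := le_max_right (v - 1) 0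
  have h3 := le_max_left (-v) 0
  have h4 := le_max_right (-v) 0
  constructor <;> linarith

theorem common_mf [NeZero m] {c : V → V → ZMod m} (hsym : ∀ x y, c x y = c y x) (hz : ZSF m c)
    (a : ZMod m) (g : (ZMod m)ˣ) (Y : V → V → ℤ)
    (hY : ∀ x w, x ≠ w → c x w = a + Y x w • (g : ZMod m)) (e₀ n₀ : ℕ)
    (hex : ∀ x, ∑ w ∈ univ.erase x, exc (Y x w) ≤ e₀)
    (h0 : ∀ x, ((univ.erase x).filter (fun w => Y x w = 0)).card ≤ n₀)
    (h1 : ∀ x, ((univ.erase x).filter (fun w => Y x w = 1)).card ≤ n₀)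
    (hnum : 7 * e₀ + n₀ ≤ m) (hnum2 : 2 * e₀ + 2 ≤ m) :
    ∃ b : V → V → Bool, (∀ x y, b x y = b y x) ∧ MF m b := by
  have hbd : ∀ x w, x ≠ w → -(e₀ : ℤ) ≤ Y x w ∧ Y x w ≤ e₀ + 1 := by
    intro x w hxw
    apply exc_bd
    refine le_trans ?_ (hex x)
    exact single_le_sum (f := fun w => exc (Y x w)) (fun i _ => exc_nn _)
      (mem_erase.2 ⟨hxw.symm, mem_univ w⟩)
  have hsY : ∀ x w, x ≠ w → Y x w = Y w x := by
    intro x w hxw
    have e1 := hY x w hxw
    rw [hsym x w, hY w x hxw.symm] at e1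
    have e2 : ((Y w x - Y x w : ℤ) : ZMod m) * (g : ZMod m) = 0 := by
      rw [zsmul_eq_mul, zsmul_eq_mul] at e1
      push_cast
      linear_combination e1
    have e3 : ((Y w x - Y x w : ℤ) : ZMod m) = 0 := (Units.mul_left_eq_zero g).1 e2
    rw [ZMod.intCast_zmod_eq_zero_iff_dvd] at e3
    obtain ⟨k, hk⟩ := e3
    have b1 := hbd x w hxw
    have b2 := hbd w x hxw.symm
    have hm : (2 * (e₀ : ℤ) + 2) ≤ m := by exact_mod_cast hnum2
    have hk0 : k = 0 := by
      by_contra hk0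
      rcases lt_or_gt_of_ne hk0 with h | h
      · have : (m : ℤ) * k ≤ m * (-1) := mul_le_mul_of_nonneg_left (by omega) (by omega)
        omega
      · have : (m : ℤ) * 1 ≤ m * k := mul_le_mul_of_nonneg_left (by omega) (by omega)
        omega
    rw [hk0, mul_zero] at hk
    omega
  have hz' : ZSF m (fun x y => ((g⁻¹ : (ZMod m)ˣ) : ZMod m) * c x y -
      ((g⁻¹ : (ZMod m)ˣ) : ZMod m) * a) := by
    intro u v huv X Z k1 k2 k3 k4 k5 k6 k7
    apply hz u v huv X Z k1 k2 k3 k4 k5 k6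
    set β : ZMod m := ((g⁻¹ : (ZMod m)ˣ) : ZMod m) * a with hβ
    simp only [Finset.sum_sub_distrib, Finset.sum_const] at k7
    have h8 : ((g⁻¹ : (ZMod m)ˣ) : ZMod m) * c u v - β +
        (∑ x ∈ X, ((g⁻¹ : (ZMod m)ˣ) : ZMod m) * c u x - X.card • β) +
        (∑ y ∈ Z, ((g⁻¹ : (ZMod m)ˣ) : ZMod m) * c v y - Z.card • β) =
        ((g⁻¹ : (ZMod m)ˣ) : ZMod m) * (c u v + ∑ x ∈ X, c u x + ∑ y ∈ Z, c v y) - m • β := by
      have h9 : m • β = (X.card + Z.card + 1) • β := congrArg (fun k => k • β) k6.symm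
      rw [h9, ← Finset.mul_sum, ← Finset.mul_sum, add_nsmul, add_nsmul, one_nsmul]
      ring
    rw [h8] at k7
    have h9 : m • β = 0 := by rw [nsmul_eq_mul, ZMod.natCast_self, zero_mul]
    rw [h9, sub_zero] at k7
    exact (Units.mul_right_eq_zero g⁻¹).1 k7
  have hC1 : ∀ x w, w ∈ univ.erase x → (if x = w then (0 : ℤ) else Y x w) = Y x w := by
    intro x w hw
    rw [if_neg (mem_erase.1 hw).1.symm]
  refine near_mf hz' (fun x w => if x = w then 0 else Y x w) ?_ ?_ e₀ n₀ ?_ ?_ ?_ hnum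
  · intro x w hxw
    simp only [if_neg hxw]
    rw [hY x w hxw, zsmul_eq_mul]
    have h2 : ((g⁻¹ : (ZMod m)ˣ) : ZMod m) * (g : ZMod m) = 1 := Units.inv_mul g
    linear_combination (-(Y x w : ZMod m)) * h2
  · intro x w
    by_cases hxw : x = w
    · subst hxw
      rfl
    · simp only [if_neg hxw, if_neg (Ne.symm hxw)]
      exact hsY x w hxw
  · intro x
    refine le_trans (le_of_eq ?_) (hex x)
    exact sum_congr rfl fun w hw => by rw [hC1 x w hw]
  · intro x
    refine le_trans (le_of_eq ?_) (h0 x)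
    exact congrArg card (filter_congr fun w hw => by rw [hC1 x w hw])
  · intro x
    refine le_trans (le_of_eq ?_) (h1 x)
    exact congrArg card (filter_congr fun w hw => by rw [hC1 x w hw])

end N
end ZS44129
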