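import Mathlib
import Pool.Agent.Work.MP_44129c_co.E.Basic
import Pool.Agent.Work.MP_44129c_co.E.GF
import Pool.Agent.Work.MP_44129c_co.E.Rep
import Pool.Agent.Work.MP_44129c_co.N.PLift

/-!
# MP_44129c_co/N, GplDefs (definitions FIXED; size M): families with `B` at `x`, the window

`sy` = the sum of all values of the star, `dd t w = t w - y w`.
`Num`: the numerical conditions for the propagation lemma (`f` own switches and `s - 1` unit exchanges).
PROOF of `famB`.  `X = XX u x`, `P = (HH u y ∩ X) \ B`, `N = (LL u y ∩ X) \ B`; `|P|, |N| ≥ min(l, h) - 1 - |B| ≥ s - 1`; the excesses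
of `P`, `N` are `≤ exH`, `≤ exL ≤ s - 2`.  `P ∪ N = X \ B` has `m + s - 2 - |B|` elements.  `tot = sy + ∑_B (t - y)` is
`y x + ∑_B t + ∑_{P ∪ N} y`.  If `sy + ∑_B (t - y) - (s - 1) ≤ τ ≤ sy + ∑_B (t - y)` then `tot - τ ∈ [0, s - 1]` lies in
`[- exc N, s - 1 + exc P]`, so by `gf` (`q = s - 1`) some `Q ⊆ P ∪ N`, `|Q| = s - 1`, has `∑_Q y = tot - τ`; `A = (P ∪ N) \ Q` has
`m - 1 - |B|` elements and `y x + ∑_A y + ∑_B t = τ`.
PROOF of `window1`.  Let `w ≠ u, x` and `R` = the set of sums `y x + ∑_A y` for `A ⊆ X \ {w}`, `|A| = m - 2`.  By `gf` (`P`, `N` as above for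
`B = {w}`) `R` is an interval `[r₀, r₁]` of integers (`r₀ = tot' - (s - 1) - exc P`, `r₁ = tot' + exc N` with
`tot' = y x + ∑_{P ∪ N} y`, and every value of `R` lies in it because `gf` describes the extreme sums: the sum of
any `s - 1` elements of `P ∪ N` is `≥ - exc N` and `≤ s - 1 + exc P`).  `ZSF` (leaf `w` at `x`, `A` at `u`): `c x w + r ≠ 0` for `r ∈ [r₀, r₁]`.
Let `t₀` be the integer with `t₀ ≡ c x w` and `1 ≤ t₀ + r₀ ≤ m`.  `t₀ + r₀ ≠ m`, and no `t₀ + r` with `r ∈ [r₀, r₁]` is `m`, so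
`t₀ + r₁ ≤ m - 1`.
-/

set_option autoImplicit false

namespace ZS44129
namespace N

open Finset E

variable {V : Type} [Fintype V] [DecidableEq V] {m : ℕ}

/-- the sum of all values of the star of `u`. -/
def sy (u : V) (y : V → ℤ) : ℤ := ∑ w ∈ univ.erase u, y w

/-- numerical conditions. -/
structure Num (m s f : ℕ) (u : V) (y : V → ℤ) : Prop where
  eL : exL u y + 2 ≤ s
  eH : exH u y + 2 ≤ s
  f2 : m + 1 ≤ 2 * (f + s - 1)
  m2 : 2 * s ≤ m
  m4 : m + 1 ≤ 4 * s
  h3 : m ≤ 3 * s + 2 ∨ ¬ 3 ∣ m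
  z0 : f + s ≤ ((univ.erase u).filter (fun w => y w = 0)).card
  z1 : f + s ≤ ((univ.erase u).filter (fun w => y w = 1)).card
  s1 : (m : ℤ) + 1 ≤ 2 * sy u y
  s2 : 2 * sy u y + 3 ≤ m + 2 * s
  l1 : (m : ℤ) - 1 + 2 * s < sy u y + 2 * (LL u y).card
  l2 : sy u y + s < 2 * ((LL u y).card : ℤ)
  k1 : (m : ℤ) - 1 + 2 * s < sy u y + 2 * (HH u y).card
  k2 : sy u y + s < 2 * ((HH u y).card : ℤ)

private theorem gp_bounds (y : V → ℤ) {P N Q : Finset V} (hP : ∀ x ∈ P, 1 ≤ y x)
    (hN : ∀ x ∈ N, y x ≤ 0) (hQ : Q ⊆ P ∪ N) :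
    - ∑ x ∈ N, (- y x) ≤ ∑ x ∈ Q, y x ∧ ∑ x ∈ Q, y x ≤ Q.card + ∑ x ∈ P, (y x - 1) := by
  constructor
  · rw [Finset.sum_neg_distrib, neg_neg]
    have h1 := Finset.sum_inter_add_sum_sdiff Q N y
    have h2 : 0 ≤ ∑ x ∈ Q \ N, y x := Finset.sum_nonneg (fun x hx => by
      have h3 := Finset.mem_sdiff.1 hx
      rcases Finset.mem_union.1 (hQ h3.1) with h4 | h4
      · have := hP x h4
        omega
      · exact absurd h4 h3.2)
    have h5 := Finset.sum_inter_add_sum_sdiff N Q y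
    have h6 : ∑ x ∈ N \ Q, y x ≤ 0 := Finset.sum_nonpos (fun x hx => hN x (Finset.mem_sdiff.1 hx).1)
    rw [Finset.inter_comm] at h5
    linarith
  · have h0 : ∑ x ∈ Q, (y x - 1) = ∑ x ∈ Q, y x - Q.card := by
      rw [Finset.sum_sub_distrib]
      simp
    have h1 := Finset.sum_inter_add_sum_sdiff Q P (fun x => y x - 1)
    have h2 : ∑ x ∈ Q \ P, (y x - 1) ≤ 0 := Finset.sum_nonpos (fun x hx => by
      have h3 := Finset.mem_sdiff.1 hx
      rcases Finset.mem_union.1 (hQ h3.1) with h4 | h4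
      · exact absurd h4 h3.2
      · have := hN x h4
        omega)
    have h5 := Finset.sum_inter_add_sum_sdiff P Q (fun x => y x - 1)
    have h6 : 0 ≤ ∑ x ∈ P \ Q, (y x - 1) := Finset.sum_nonneg (fun x hx => by
      have := hP x (Finset.mem_sdiff.1 hx).1
      omega)
    rw [Finset.inter_comm] at h5
    linarith

/-- the high positions outside `B`. -/
private def gP (u x : V) (y : V → ℤ) (B : Finset V) : Finset V := (XX u x \ B).filter (fun w => 1 ≤ y w)

/-- the low positions outside `B`. -/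
private def gN (u x : V) (y : V → ℤ) (B : Finset V) : Finset V := (XX u x \ B).filter (fun w => y w ≤ 0)

private theorem gPN_union (u x : V) (y : V → ℤ) (B : Finset V) : gP u x y B ∪ gN u x y B = XX u x \ B := by
  ext w
  simp only [gP, gN, Finset.mem_union, Finset.mem_filter]
  constructor
  · rintro (h | h)
    · exact h.1
    · exact h.1
  · intro h
    rcases le_or_gt (y w) 0 with h1 | h1
    · exact Or.inr ⟨h, h1⟩
    · exact Or.inl ⟨h, h1⟩

private theorem gPN_disj (u x : V) (y : V → ℤ) (B : Finset V) : Disjoint (gP u x y B) (gN u x y B) := by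
  rw [Finset.disjoint_left]
  intro w h1 h2
  have h3 := (Finset.mem_filter.1 h1).2
  have h4 := (Finset.mem_filter.1 h2).2
  omega

private theorem gP_ge (u x : V) (y : V → ℤ) (B : Finset V) : ∀ w ∈ gP u x y B, 1 ≤ y w :=
  fun _ hw => (Finset.mem_filter.1 hw).2

private theorem gN_le (u x : V) (y : V → ℤ) (B : Finset V) : ∀ w ∈ gN u x y B, y w ≤ 0 :=
  fun _ hw => (Finset.mem_filter.1 hw).2

private theorem gP_card (u x : V) (y : V → ℤ) (B : Finset V) :
    (HH u y).card ≤ (gP u x y B).card + 1 + B.card := by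
  have h1 : HH u y ⊆ gP u x y B ∪ (insert x B) := by
    intro w hw
    have h2 := mem_HH.1 hw
    rw [Finset.mem_union, Finset.mem_insert]
    by_cases h3 : w = x
    · exact Or.inr (Or.inl h3)
    · by_cases h4 : w ∈ B
      · exact Or.inr (Or.inr h4)
      · left
        rw [gP, Finset.mem_filter, Finset.mem_sdiff, mem_XX]
        exact ⟨⟨⟨h2.1, h3⟩, h4⟩, h2.2⟩
  have h2 := Finset.card_le_card h1
  have h3 := Finset.card_union_le (gP u x y B) (insert x B)
  have h4 := Finset.card_insert_le x B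
  omega

private theorem gN_card (u x : V) (y : V → ℤ) (B : Finset V) :
    (LL u y).card ≤ (gN u x y B).card + 1 + B.card := by
  have h1 : LL u y ⊆ gN u x y B ∪ (insert x B) := by
    intro w hw
    have h2 := mem_LL.1 hw
    rw [Finset.mem_union, Finset.mem_insert]
    by_cases h3 : w = x
    · exact Or.inr (Or.inl h3)
    · by_cases h4 : w ∈ B
      · exact Or.inr (Or.inr h4)
      · left
        rw [gN, Finset.mem_filter, Finset.mem_sdiff, mem_XX]
        exact ⟨⟨⟨h2.1, h3⟩, h4⟩, h2.2⟩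
  have h2 := Finset.card_le_card h1
  have h3 := Finset.card_union_le (gN u x y B) (insert x B)
  have h4 := Finset.card_insert_le x B
  omega

private theorem gP_exc (u x : V) (y : V → ℤ) (B : Finset V) :
    ∑ w ∈ gP u x y B, (y w - 1) ≤ exH u y := by
  unfold exH
  apply Finset.sum_le_sum_of_subset_of_nonneg
  · intro w hw
    have h1 := Finset.mem_filter.1 hw
    exact mem_HH.2 ⟨(mem_XX.1 (Finset.mem_sdiff.1 h1.1).1).1, h1.2⟩
  · intro w hw _
    have := (mem_HH.1 hw).2
    omega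

private theorem gN_exc (u x : V) (y : V → ℤ) (B : Finset V) :
    ∑ w ∈ gN u x y B, (- y w) ≤ exL u y := by
  unfold exL
  apply Finset.sum_le_sum_of_subset_of_nonneg
  · intro w hw
    have h1 := Finset.mem_filter.1 hw
    exact mem_LL.2 ⟨(mem_XX.1 (Finset.mem_sdiff.1 h1.1).1).1, h1.2⟩
  · intro w hw _
    have := (mem_LL.1 hw).2
    omega

private theorem sy_split (u : V) (y : V → ℤ) {x : V} (hx : x ≠ u) :
    sy u y = y x + ∑ w ∈ XX u x, y w := by
  unfold sy XX
  exact (Finset.add_sum_erase (univ.erase u) y (Finset.mem_erase.2 ⟨hx, Finset.mem_univ x⟩)).symm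

private theorem zero_card_le (u : V) (y : V → ℤ) :
    ((univ.erase u).filter (fun w => y w = 0)).card ≤ (LL u y).card := by
  apply Finset.card_le_card
  intro w hw
  have h1 := Finset.mem_filter.1 hw
  exact Finset.mem_filter.2 ⟨h1.1, by omega⟩

private theorem one_card_le (u : V) (y : V → ℤ) :
    ((univ.erase u).filter (fun w => y w = 1)).card ≤ (HH u y).card := by
  apply Finset.card_le_card
  intro w hw
  have h1 := Finset.mem_filter.1 hw
  exact Finset.mem_filter.2 ⟨h1.1, by omega⟩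

theorem famB {c : V → V → ZMod m} {u : V} {y : V → ℤ} (h : SL c u y) {s f : ℕ}
    (hV : Fintype.card V = m + s) (hn : Num m s f u y) {x : V} (hx : x ≠ u) (t : V → ℤ)
    (B : Finset V) (hB : B ⊆ XX u x) (hB1 : B.card + s ≤ (LL u y).card)
    (hB2 : B.card + s ≤ (HH u y).card) (τ : ℤ)
    (h1 : sy u y + ∑ w ∈ B, (t w - y w) ≤ τ + (s - 1))
    (h2 : τ ≤ sy u y + ∑ w ∈ B, (t w - y w)) :
    ∃ A : Finset V, A ⊆ XX u x ∧ Disjoint A B ∧ A.card + B.card + 1 = m ∧
      y x + ∑ w ∈ A, y w + ∑ w ∈ B, t w = τ := by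
  have hL0 := exL_nonneg u y
  have hH0 := exH_nonneg u y
  have hs2 : 2 ≤ s := by have := hn.eL; omega
  have hXc : (XX u x).card + 2 = m + s := by rw [← hV]; exact card_XX (Ne.symm hx)
  have hBX : B.card ≤ (XX u x).card := Finset.card_le_card hB
  have hsd : (XX u x \ B).card = (XX u x).card - B.card := Finset.card_sdiff_of_subset hB
  have hPc := gP_card u x y B
  have hNc := gN_card u x y B
  have hPe := gP_exc u x y B
  have hNe := gN_exc u x y B
  have hq : ((s - 1 : ℕ) : ℤ) = (s : ℤ) - 1 := by push_cast [show 1 ≤ s by omega]; ring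
  have hPn : 0 ≤ ∑ w ∈ gP u x y B, (y w - 1) := Finset.sum_nonneg (fun w hw => by
    have := gP_ge u x y B w hw
    omega)
  have hNn : 0 ≤ ∑ w ∈ gN u x y B, (- y w) := Finset.sum_nonneg (fun w hw => by
    have := gN_le u x y B w hw
    omega)
  have heL := hn.eL
  have heH := hn.eH
  obtain ⟨Q, hQ, hQc, hQs⟩ := gf y (s - 1) (by omega) (gP u x y B) (gN u x y B)
    (gPN_disj u x y B) (gP_ge u x y B) (gN_le u x y B) (by omega) (by omega)
    (by rw [hq]; linarith) (by rw [hq]; linarith)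
    (sy u y + ∑ w ∈ B, (t w - y w) - τ) (by linarith) (by rw [hq]; linarith)
  rw [gPN_union] at hQ
  have hQB : ((XX u x \ B) \ Q).card = (XX u x \ B).card - Q.card := Finset.card_sdiff_of_subset hQ
  have hQle : Q.card ≤ (XX u x \ B).card := Finset.card_le_card hQ
  refine ⟨(XX u x \ B) \ Q, ?_, ?_, ?_, ?_⟩
  · exact (Finset.sdiff_subset).trans Finset.sdiff_subset
  · rw [Finset.disjoint_left]
    intro w h3 h4
    exact (Finset.mem_sdiff.1 (Finset.mem_sdiff.1 h3).1).2 h4
  · omega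
  · have e1 := Finset.sum_sdiff (f := y) hQ
    have e2 := Finset.sum_sdiff (f := y) hB
    have e3 := sy_split u y hx
    have e4 : ∑ w ∈ B, (t w - y w) = ∑ w ∈ B, t w - ∑ w ∈ B, y w := Finset.sum_sub_distrib _ _
    linarith

theorem window1 [NeZero m] {c : V → V → ZMod m} (hsym : ∀ p q, c p q = c q p) (hz : ZSF m c)
    {u : V} {y : V → ℤ} (h : SL c u y) {s f : ℕ} (hV : Fintype.card V = m + s)
    (hn : Num m s f u y) {x : V} (hx : x ≠ u) {w : V} (hwu : w ≠ u) (hwx : w ≠ x) :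
    ∃ t₀ : ℤ, (t₀ : ZMod m) = c x w ∧ ∀ A : Finset V, A ⊆ XX u x → w ∉ A → A.card + 2 = m →
      1 ≤ y x + ∑ v ∈ A, y v + t₀ ∧ y x + ∑ v ∈ A, y v + t₀ ≤ m - 1 := by
  have hL0 := exL_nonneg u y
  have hH0 := exH_nonneg u y
  have heL := hn.eL
  have heH := hn.eH
  have hs2 : 2 ≤ s := by omega
  have hf : 2 ≤ f := by have := hn.f2; have := hn.m2; omega
  have hz0 := hn.z0
  have hz1 := hn.z1
  have hLc := zero_card_le u y
  have hHc := one_card_le u y
  have hXc : (XX u x).card + 2 = m + s := by rw [← hV]; exact card_XX (Ne.symm hx)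
  have hwX : w ∈ XX u x := mem_XX.2 ⟨hwu, hwx⟩
  have hB : ({w} : Finset V) ⊆ XX u x := Finset.singleton_subset_iff.2 hwX
  have hB1 : ({w} : Finset V).card = 1 := Finset.card_singleton w
  have hsd : (XX u x \ {w}).card = (XX u x).card - 1 := by
    rw [Finset.card_sdiff_of_subset hB, hB1]
  have hPc := gP_card u x y {w}
  have hNc := gN_card u x y {w}
  have hPe := gP_exc u x y {w}
  have hNe := gN_exc u x y {w}
  have hq : ((s - 1 : ℕ) : ℤ) = (s : ℤ) - 1 := by push_cast [show 1 ≤ s by omega]; ring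
  have hPn : 0 ≤ ∑ v ∈ gP u x y {w}, (y v - 1) := Finset.sum_nonneg (fun v hv => by
    have := gP_ge u x y {w} v hv
    omega)
  have hNn : 0 ≤ ∑ v ∈ gN u x y {w}, (- y v) := Finset.sum_nonneg (fun v hv => by
    have := gN_le u x y {w} v hv
    omega)
  set eP := ∑ v ∈ gP u x y {w}, (y v - 1) with heP
  set eN := ∑ v ∈ gN u x y {w}, (- y v) with heN
  set T := y x + ∑ v ∈ XX u x \ {w}, y v with hT
  have hno : ∀ r : ℤ, T - (s - 1) - eP ≤ r → r ≤ T + eN → ∀ t : ℤ, (t : ZMod m) = c x w → t + r ≠ m := by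
    intro r hr1 hr2 t ht hcon
    obtain ⟨Q, hQ, hQc, hQs⟩ := gf y (s - 1) (by omega) (gP u x y {w}) (gN u x y {w})
      (gPN_disj u x y {w}) (gP_ge u x y {w}) (gN_le u x y {w}) (by omega) (by omega)
      (by rw [hq]; linarith) (by rw [hq]; linarith)
      (T - r) (by linarith) (by rw [hq]; linarith)
    rw [gPN_union] at hQ
    have hQB : ((XX u x \ {w}) \ Q).card = (XX u x \ {w}).card - Q.card := Finset.card_sdiff_of_subset hQ
    have hQle : Q.card ≤ (XX u x \ {w}).card := Finset.card_le_card hQ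
    have e1 := Finset.sum_sdiff (f := y) hQ
    have hmem : ∀ v ∈ (XX u x \ {w}) \ Q, v ≠ u ∧ v ≠ x ∧ v ≠ w := by
      intro v hv
      have h1 := Finset.mem_sdiff.1 (Finset.mem_sdiff.1 hv).1
      have h2 := mem_XX.1 h1.1
      exact ⟨h2.1, h2.2, fun h3 => h1.2 (Finset.mem_singleton.2 h3)⟩
    refine hz u x (Ne.symm hx) ((XX u x \ {w}) \ Q) {w} ?_ ?_ ?_ ?_ ?_ ?_ ?_
    · rw [Finset.disjoint_left]
      intro v h3 h4
      exact (hmem v h3).2.2 (Finset.mem_singleton.1 h4)
    · exact fun h3 => (hmem u h3).1 rfl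
    · exact fun h3 => (hmem x h3).2.1 rfl
    · exact fun h3 => hwu (Finset.mem_singleton.1 h3).symm
    · exact fun h3 => hwx (Finset.mem_singleton.1 h3).symm
    · rw [hB1]; omega
    · rw [Finset.sum_singleton]
      have e2 : ∑ v ∈ (XX u x \ {w}) \ Q, c u v = ∑ v ∈ (XX u x \ {w}) \ Q, ((y v : ℤ) : ZMod m) :=
        Finset.sum_congr rfl (fun v hv => (h.cast v (hmem v hv).1).symm)
      rw [e2, ← h.cast x hx, ← ht]
      have e3 : (t + r : ℤ) = (m : ℤ) := hcon
      have e4 : y x + ∑ v ∈ (XX u x \ {w}) \ Q, y v + t = t + r := by linarith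
      have e5 := congrArg (fun z : ℤ => (z : ZMod m)) (e4.trans e3)
      push_cast at e5
      rw [e5]
      exact ZMod.natCast_self m
  set r0 := T - (s - 1) - eP with hr0
  have ht1 : ((rep (1 - r0) (c x w) : ℤ) : ZMod m) = c x w := rep_cast _ _
  have ht2 := rep_ge (1 - r0) (c x w)
  have ht3 := rep_lt (1 - r0) (c x w)
  refine ⟨rep (1 - r0) (c x w), ht1, ?_⟩
  have hle : rep (1 - r0) (c x w) + (T + eN) ≤ m - 1 := by
    by_contra hcon
    push Not at hcon
    have h5 := hno (m - rep (1 - r0) (c x w)) (by omega) (by omega) _ ht1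
    exact h5 (by ring)
  intro A hA hwA hAc
  have hAX : A ⊆ XX u x \ {w} := by
    intro v hv
    rw [Finset.mem_sdiff, Finset.mem_singleton]
    exact ⟨hA hv, fun h5 => hwA (h5 ▸ hv)⟩
  have hQc : ((XX u x \ {w}) \ A).card = (XX u x \ {w}).card - A.card := Finset.card_sdiff_of_subset hAX
  have hAle : A.card ≤ (XX u x \ {w}).card := Finset.card_le_card hAX
  have hb := gp_bounds y (gP_ge u x y {w}) (gN_le u x y {w}) (Q := (XX u x \ {w}) \ A)
    (by rw [gPN_union]; exact Finset.sdiff_subset)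
  have e1 := Finset.sum_sdiff (f := y) hAX
  have hQ1 : ((XX u x \ {w}) \ A).card = s - 1 := by omega
  rw [hQ1, hq] at hb
  constructor
  · linarith [hb.2]
  · linarith [hb.1]

end N
end ZS44129
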